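import Pool.Agent.Helper75.CR.St2

set_option autoImplicit false

/-!
# Project CR (MP_265e56_al): module N1
-/

namespace Pool.Agent.Helper3.CR

open Pool.Agent.Helper75.CR Helper1.IM

theorem hN1 : Pool.Agent.Helper75.CR.StN1 := by
  intro ρ hP s hs hr
  obtain ⟨r, hr⟩ := hr
  obtain ⟨h1, h2⟩ := hP
  have e1 : ρ.r (s ++ st s) (st s ++ s) := by
    have h := ρ.sub' (fun _ => s) (fun _ => hs) h1
    simpa using h
  have e2 : ρ.r (s ++ (st s ++ s)) (s ++ st s) := by
    have h := ρ.sub' (fun _ => s) (fun _ => hs) h2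
    simpa using h
  have e3 : ρ.r (st s ++ (s ++ st s)) (s ++ st s) := by
    have h := ρ.star' e2
    simpa using h
  -- p s = p, p T = p, p p = p
  have f1 : ρ.r ((s ++ st s) ++ s) (s ++ st s) := by
    rw [List.append_assoc]
    exact e2
  have f2 : ρ.r ((s ++ st s) ++ st s) (s ++ st s) := by
    refine ρ.trans' (ρ.mulR (st s) e1) ?_
    rw [List.append_assoc]
    exact e3
  have f3 : ρ.r ((s ++ st s) ++ (s ++ st s)) (s ++ st s) := by
    rw [← List.append_assoc]
    exact ρ.trans' (ρ.mulR (st s) f1) f2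
  -- p s = s
  have f4 : ρ.r ((s ++ st s) ++ s) s := by
    have g1 : ρ.r ((s ++ st s) ++ s) ((s ++ st s) ++ (s ++ st s ++ r)) := ρ.mulL (s ++ st s) hr
    have g2 : ρ.r ((s ++ st s) ++ (s ++ st s ++ r)) (s ++ st s ++ r) := by
      rw [← List.append_assoc]
      exact ρ.mulR r f3
    exact ρ.trans' (ρ.trans' g1 g2) (ρ.symm' hr)
  exact ρ.trans' (ρ.symm' f4) f1

end Pool.Agent.Helper3.CR
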